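import Pool.Agent.T6.H10.BM.C3
import Pool.Agent.T6.H10.BM.G
import Pool.Agent.Y696.XL.Up
import Pool.Agent.R432.JG.Common

/-!
# The Birch and Swinnerton-Dyer conjecture modulo 2 over all subfields of the fields `ℚ(ω, ∛l : l ∈ S)`

`K = ℚ(ω)` is the field of the third roots of unity, `E_D : y² + D y = x³` and
`E'_D : y² + D y = x³ - 7 D²`, the curve `x³ + y³ = D`.  `D` runs through the elements of a class of
squarefree elements of `𝓞 K` for which `E_D(K)` is finite and `Ш(E_D / K)[3^∞] = 0`; at least 63.9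
percent of the class, and at least 56 percent of the rational integers with exactly one prime factor
`2` modulo `3`, have this property.  For every finite set `S` of primes of `K` that is admissible for
`D` and `F = K(∛l : l ∈ S)`, of degree `3 ^ #S` over `K`, we prove: over EVERY subfield `k` of `F` that
contains `D` the orders of vanishing at `s = 1` of the Hasse-Weil `L`-functions of `E_D` and `E'_D` (all
Euler factors, from minimal models, any analytic continuation, in the form of the frozen statement) and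
the ranks of `E_D(k)` and `E'_D(k)` are zero.

If `D` is a rational integer then the field `k` need not contain `√-3`: if `S` is stable under the
conjugation then `F` has a subfield of degree `3 ^ #S` over `ℚ` with a real embedding, and `S` can be
enlarged by the two primes over `p` for infinitely many rational primes `p`.  So there are such `k` of
every degree `3 ^ (2 m)`.  In particular for every prime
`q = 2, 5` modulo `9` and all the infinitely many primes `p = 1` modulo `9` modulo which `q` is not a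
cube, both curves with `D = -q` have order and rank zero over the cyclic cubic field of conductor `p`,
given by `t³ = 3 p t + p a`, `4 p = a² + 27 b²`; for example `x³ + y³ = 2` and `t³ = 57 t + 133`, `p = 19`.

The proof.  (1) Let `k` be a subfield of `F` and `M = k K`.  By the theory of Kummer `M` is generated
over `K` by cube roots of products `d_i` of elements of `S`.  (2) The values of the Hecke character of
`E_D` at the places of `M` are the powers of those of `K`, and the product over the twists of the entire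
Hecke `L`-functions of `E_{D'}` over `K`, `D' = D ∏ l ^ (e_l)`, is the Hecke `L`-function of `E_D` over
`M`; so it is entire, and it is not zero at `s = 1` by the library (leaves of the graph of the cubic
residue symbols, and the exact `3`-adic valuation of the central values).  (3) If `√-3` is in `k` then
`L(E_D / k, s)` is the product of this function and its conjugate.  If not then `D` is rational, `M` is
quadratic over `k`, a place of `k` splits in two places of `M` with conjugate values of the Hecke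
character or it is inert with the value `-q_v`, and `L(E_D / k, s)` is this Hecke `L`-function, up to
finitely many Euler factors, which are not zero at `s = 1`.  (4) `E_D(F)` is finite by the library, and
`E'_D` has the same Euler factors as it has the same numbers of points.  (5) If the prime `l` is
attached to the rational `D` then it is not rational and its conjugate is attached, and the two are
cubes modulo each other by the law of reciprocity.  (6) The positive proportions are from the library.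
-/

set_option autoImplicit false
set_option linter.unusedSectionVars false

namespace Pool.Agent.Results.MP_413b36_nt.SubfieldsOfCubicTowers

open NumberField IsDedekindDomain
open Pool.Agent.TH841.NF.D (Sha)
open scoped Classical

/-- The curve `E_D : y² + D y = x³`. -/
def curve {F : Type} [Field F] (D : F) : WeierstrassCurve F := ⟨0, 0, D, 0, 0⟩

/-- The curve `E'_D : y² + D y = x³ - 7 D²`, isomorphic to `x³ + y³ = D` and `3`-isogenous to `E_D`. -/
def cubesCurve {F : Type} [Field F] (D : F) : WeierstrassCurve F := ⟨0, 0, D, 0, -7 * D ^ 2⟩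

section field

variable {k : Type} [Field k] [NumberField k]

/-- `M P` is, for every prime `P`, an integral model of `E` with discriminant minimal at `P`. -/
def MinimalModels (E : WeierstrassCurve k)
    (M : {P : Ideal (𝓞 k) // P.IsPrime ∧ P ≠ ⊥} → WeierstrassCurve (𝓞 k)) : Prop :=
  ∀ P, (∃ C : WeierstrassCurve.VariableChange k, C • E = (M P).map (algebraMap (𝓞 k) k)) ∧
    ∀ W : WeierstrassCurve (𝓞 k),
      (∃ C : WeierstrassCurve.VariableChange k, C • E = W.map (algebraMap (𝓞 k) k)) →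
        ∀ n : ℕ, (M P).Δ ∈ P.1 ^ n → W.Δ ∈ P.1 ^ n

/-- The Euler factor at `P`, as in the frozen statement. -/
noncomputable def factor (M : {P : Ideal (𝓞 k) // P.IsPrime ∧ P ≠ ⊥} → WeierstrassCurve (𝓞 k))
    (s : ℂ) (P : {P : Ideal (𝓞 k) // P.IsPrime ∧ P ≠ ⊥}) : ℂ :=
  (1 - ((Nat.card (𝓞 k ⧸ P.1) : ℂ)
        - (Nat.card {xy : (𝓞 k ⧸ P.1) × (𝓞 k ⧸ P.1) //
            ((M P).map (Ideal.Quotient.mk P.1)).toAffine.Equation xy.1 xy.2} : ℂ))
      * (Nat.card (𝓞 k ⧸ P.1) : ℂ) ^ (-s)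
    + (if (M P).Δ ∈ P.1 then 0 else (Nat.card (𝓞 k ⧸ P.1) : ℂ) ^ (1 - 2 * s)))⁻¹

/-- `f` is an analytic continuation of the `L`-function to the open connected set `U`, as in the
frozen statement. -/
def Continuation (M : {P : Ideal (𝓞 k) // P.IsPrime ∧ P ≠ ⊥} → WeierstrassCurve (𝓞 k))
    (U : Set ℂ) (f : ℂ → ℂ) : Prop :=
  IsOpen U ∧ IsConnected U ∧ (1 : ℂ) ∈ U ∧ {s : ℂ | 3 / 2 < s.re} ⊆ U ∧ AnalyticOnNhd ℂ f U ∧
    ∀ s : ℂ, 3 / 2 < s.re → f s = ∏' P : {P : Ideal (𝓞 k) // P.IsPrime ∧ P ≠ ⊥}, factor M s P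

/-- The order of vanishing and the rank are both zero: `E` is an elliptic curve with minimal models;
the Euler product converges for `Re s > 3/2`, whatever the minimal models; it has a meromorphic
continuation to `ℂ` that is analytic and not zero at `s = 1`, it has a continuation as in the frozen
statement, and every such continuation has order zero at `s = 1`; and `E(k)` is finite, of rank zero. -/
def OrderAndRankZero (E : WeierstrassCurve k) : Prop :=
  E.IsElliptic ∧
  (∃ M : {P : Ideal (𝓞 k) // P.IsPrime ∧ P ≠ ⊥} → WeierstrassCurve (𝓞 k), MinimalModels E M) ∧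
  (∃ Λ : ℂ → ℂ, MeromorphicOn Λ Set.univ ∧ AnalyticAt ℂ Λ 1 ∧ Λ 1 ≠ 0 ∧
    ∀ M : {P : Ideal (𝓞 k) // P.IsPrime ∧ P ≠ ⊥} → WeierstrassCurve (𝓞 k), MinimalModels E M →
      ∀ s : ℂ, 3 / 2 < s.re → HasProd (factor M s) (Λ s)) ∧
  (∀ M : {P : Ideal (𝓞 k) // P.IsPrime ∧ P ≠ ⊥} → WeierstrassCurve (𝓞 k), MinimalModels E M →
    (∃ (U : Set ℂ) (f : ℂ → ℂ), Continuation M U f) ∧
    ∀ (U : Set ℂ) (f : ℂ → ℂ), Continuation M U f → f 1 ≠ 0 ∧ analyticOrderNatAt f 1 = 0) ∧
  Finite E.toAffine.Point ∧ Module.finrank ℤ E.toAffine.Point = 0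

end field

variable {K : Type} [Field K] [NumberField K]

/-- `D` is squarefree and `1` modulo `3`, and its norm is not `1` modulo `9`. -/
def InClass (D : 𝓞 K) : Prop :=
  (3 : 𝓞 K) ∣ D - 1 ∧ Squarefree D ∧ ¬ (9 : ℤ) ∣ Algebra.norm ℤ D - 1

/-- `x` is a cube modulo `l`. -/
def IsCubeMod (x l : 𝓞 K) : Prop := ∃ y : 𝓞 K, l ∣ x - y ^ 3

/-- `l` is a prime element, `1` modulo `3`, of norm `1` modulo `9`, it does not divide `D`, and
exactly one of the prime elements `p = 1` modulo `3` that divide `D` is not a cube modulo `l`. -/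
def Attached (D l : 𝓞 K) : Prop :=
  Prime l ∧ (3 : 𝓞 K) ∣ l - 1 ∧ (9 : ℤ) ∣ Algebra.norm ℤ l - 1 ∧ ¬ l ∣ D ∧
    ∃! p : 𝓞 K, Prime p ∧ (3 : 𝓞 K) ∣ p - 1 ∧ p ∣ D ∧ ¬ IsCubeMod p l

/-- Each `l ∈ S` is attached to `D`, and the other elements of `S` are cubes modulo `l`. -/
def Admissible (D : 𝓞 K) (S : Finset (𝓞 K)) : Prop :=
  (∀ l ∈ S, Attached D l) ∧ ∀ l ∈ S, ∀ m ∈ S, m ≠ l → IsCubeMod m l

/-- `F = K(∛l : l ∈ S)`. -/
def Generated (S : Finset (𝓞 K)) (F : Type) [Field F] [Algebra K F] : Prop :=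
  ∃ r : 𝓞 K → F, (∀ l ∈ S, r l ^ 3 = algebraMap K F (l : K)) ∧
    ∀ L : Subfield F, (∀ k : K, algebraMap K F k ∈ L) → (∀ l ∈ S, r l ∈ L) → L = ⊤

/-- `E_D(K)` is finite and `Ш(E_D / K)` has no elements of order `3`. -/
def NoThree (D : 𝓞 K) : Prop :=
  Finite (curve (D : K)).toAffine.Point ∧
    ∀ (n : ℕ) (x : Sha (curve (D : K))), 3 ^ n • x = 0 → x = 0

/-- For every admissible set `S`: there are infinitely many primes `l` outside `S` such that
`S ∪ {l}` is admissible; there is a number field `F = K(∛l : l ∈ S)`; and for each such `F` the degree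
`[F : K]` is `3 ^ #S`, and for EVERY number field `k` with an embedding in `F` whose image contains
`D`, the order of vanishing at `s = 1` and the rank of `E_D` over `k` are both zero. -/
def Subfields (D : 𝓞 K) : Prop :=
  ∀ S : Finset (𝓞 K), Admissible D S →
    {l : 𝓞 K | l ∉ S ∧ Admissible D (insert l S)}.Infinite ∧
    (∃ (F : Type) (_ : Field F) (_ : NumberField F) (_ : Algebra K F), Generated S F) ∧
    ∀ (F : Type) [Field F] [NumberField F] [Algebra K F], Generated S F →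
      Module.finrank K F = 3 ^ S.card ∧
      ∀ (k : Type) [Field k] [NumberField k] (σ : k →+* F) (c : k),
        σ c = algebraMap K F (D : K) →
          OrderAndRankZero (curve c) ∧ OrderAndRankZero (cubesCurve c)

/-- `S` is stable under the automorphisms of `𝓞 K`. -/
def Stable (S : Finset (𝓞 K)) : Prop := ∀ τ : 𝓞 K ≃+* 𝓞 K, ∀ l ∈ S, τ l ∈ S

/-- For the rational integer `n`, and every stable admissible set `S`: there are infinitely many
rational primes `p = l l'` such that the set `S ∪ {l, l'}` is again stable and admissible, with two more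
elements; and every field `F = K(∛l : l ∈ S)` has a subfield `k` of degree `3 ^ #S` over `ℚ` with a real
embedding (so `√-3` is not in `k`), over which the order of vanishing and the rank of `E_n` are zero. -/
def RealTowers (K : Type) [Field K] [NumberField K] (n : ℤ) : Prop :=
  ∀ S : Finset (𝓞 K), Stable S → Admissible (n : 𝓞 K) S →
    {p : ℕ | p.Prime ∧ ∃ S' : Finset (𝓞 K), S ⊆ S' ∧ S'.card = S.card + 2 ∧ Stable S' ∧
      Admissible (n : 𝓞 K) S' ∧ ∏ l ∈ S' \ S, l = (p : 𝓞 K)}.Infinite ∧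
    ∀ (F : Type) [Field F] [NumberField F] [Algebra K F], Generated S F →
      ∃ (k : Type) (_ : Field k) (_ : NumberField k) (_ : k →+* F),
        Module.finrank ℚ k = 3 ^ S.card ∧ Nonempty (k →+* ℝ) ∧
          OrderAndRankZero (curve (n : k)) ∧ OrderAndRankZero (cubesCurve (n : k))

/-- `D` is squarefree, not divisible by `3`, not `±1` modulo `9`, and divisible by exactly one prime
that is `2` modulo `3`. -/
def RatClass (D : ℕ) : Prop :=
  Squarefree D ∧ ¬ 3 ∣ D ∧ D % 9 ≠ 1 ∧ D % 9 ≠ 8 ∧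
    ∃ q : ℕ, q.Prime ∧ q % 3 = 2 ∧ q ∣ D ∧ ∀ p : ℕ, p.Prime → p ∣ D → p ≠ q → p % 3 = 1

/-- In every factorization of `D` in coprime factors `d₀ d₁ d₂` for which `d₁ d₂²`, `d₂ d₀²`,
`d₀ d₁²` are cubes modulo the primes dividing `d₀`, `d₁`, `d₂` respectively, two factors are `1`. -/
def HasNoSplitting (D : ℕ) : Prop :=
  ∀ d : ZMod 3 → ℕ, ∏ c, d c = D → (∀ c c', c ≠ c' → Nat.Coprime (d c) (d c')) →
    (∀ (c : ZMod 3) (p : ℕ), p.Prime → p ∣ d c →
      ∃ x : ℤ, (p : ℤ) ∣ (d (c + 1) : ℤ) * (d (c + 2) : ℤ) ^ 2 - x ^ 3) →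
    ∃ c, ∀ c', c' ≠ c → d c' = 1

/-- `k` has degree `3` and contains a root of `X³ - 3 p X - p a`, where `4 p = a² + 27 b²`. -/
def IsCubic (p : ℕ) (k : Type) [Field k] [NumberField k] : Prop :=
  Module.finrank ℚ k = 3 ∧ ∃ a b : ℤ, 4 * (p : ℤ) = a ^ 2 + 27 * b ^ 2 ∧
    ∃ t : k, t ^ 3 = 3 * p * t + p * a

/-- For the number `q`: there are infinitely many primes `p = 1` modulo `9` modulo which `q` is not a
cube and for which there is a field `k` as in `IsCubic`; and for all such `p` and `k` the field `k` is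
Galois over `ℚ`, and the order of vanishing and the rank of the curves `y² - q y = x³` and
`x³ + y³ = -q` over `k` are zero. -/
def CyclicCubicFields (q : ℕ) : Prop :=
  {p : ℕ | p.Prime ∧ p % 9 = 1 ∧ (¬ ∃ x : ℤ, (p : ℤ) ∣ q - x ^ 3) ∧
    ∃ (k : Type) (_ : Field k) (_ : NumberField k), IsCubic p k}.Infinite ∧
  ∀ p : ℕ, p.Prime → p % 9 = 1 → (¬ ∃ x : ℤ, (p : ℤ) ∣ q - x ^ 3) →
    ∀ (k : Type) [Field k] [NumberField k], IsCubic p k →
      IsGalois ℚ k ∧ OrderAndRankZero (curve (-(q : k))) ∧ OrderAndRankZero (cubesCurve (-(q : k)))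

section bridge

variable {k : Type} [Field k] [NumberField k]

open Pool.Agent.H341R2.EC (IsModel IsMinAt red aff trc dlt)
open Pool.Agent.R433.MD (lf)
open Pool.Agent.H921R2.TatePole (nm two_le_nm)
open Pool.Agent.R432.V (qv qv_eq ef)

/-- the primes -/
def eP (k : Type) [Field k] [NumberField k] :
    HeightOneSpectrum (𝓞 k) ≃ {P : Ideal (𝓞 k) // P.IsPrime ∧ P ≠ ⊥} where
  toFun v := ⟨v.asIdeal, v.isPrime, v.ne_bot⟩
  invFun P := ⟨P.1, P.2.1, P.2.2⟩
  left_inv _ := rfl
  right_inv _ := rfl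

theorem minimal_iff (E : WeierstrassCurve k)
    (M : {P : Ideal (𝓞 k) // P.IsPrime ∧ P ≠ ⊥} → WeierstrassCurve (𝓞 k)) :
    MinimalModels E M ↔ ∀ v, IsMinAt E v (M (eP k v)) := by
  unfold MinimalModels IsMinAt
  constructor
  · intro h v
    exact h (eP k v)
  · intro h P
    exact h ((eP k).symm P)

theorem factor_eq (M : {P : Ideal (𝓞 k) // P.IsPrime ∧ P ≠ ⊥} → WeierstrassCurve (𝓞 k)) (s : ℂ)
    (v : HeightOneSpectrum (𝓞 k)) :
    factor M s (eP k v) = (lf (fun v => M (eP k v)) s v)⁻¹ := by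
  unfold factor
  congr 1
  unfold lf trc dlt
  have e1 : Nat.card {xy : (𝓞 k ⧸ (eP k v).1) × (𝓞 k ⧸ (eP k v).1) //
      ((M (eP k v)).map (Ideal.Quotient.mk (eP k v).1)).toAffine.Equation xy.1 xy.2} =
      aff (red v (M (eP k v))) := by
    unfold aff red
    refine Nat.card_congr (Equiv.subtypeEquivRight fun xy => ?_)
    rw [WeierstrassCurve.Affine.equation_iff]
    rfl
  have e3 : (Nat.card (𝓞 k ⧸ (eP k v).1) : ℂ) = ((nm v : ℕ) : ℂ) := by
    rw [← qv_eq]
    rfl
  rw [e1, e3]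
  push_cast
  have e4 : (M (eP k v)).Δ ∈ (eP k v).1 ↔ (M (eP k v)).Δ ∈ v.asIdeal := Iff.rfl
  by_cases h : (M (eP k v)).Δ ∈ v.asIdeal
  · rw [if_pos (e4.2 h), if_pos h]
    ring
  · rw [if_neg (fun h' => h (e4.1 h')), if_neg h]
    ring

theorem isConnected_analytic {Λ : ℂ → ℂ} (h : MeromorphicOn Λ Set.univ) :
    IsConnected {z : ℂ | AnalyticAt ℂ Λ z} := by
  have h1 : ({z : ℂ | AnalyticAt ℂ Λ z}ᶜ).Countable := by
    have h2 := h.countable_compl_analyticAt_inter
    simpa using h2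
  have h2 := h1.isConnected_compl_of_one_lt_rank (by
    rw [Complex.rank_real_complex]
    norm_num)
  rwa [compl_compl] at h2

theorem orz {E : WeierstrassCurve k} (hE : E.IsElliptic) (hfin : Finite E.toAffine.Point)
    {c : 𝓞 k} {B : ℕ} (hB : B ≠ 0)
    (hloc : ∀ V : HeightOneSpectrum (𝓞 k) → WeierstrassCurve (𝓞 k), (∀ v, IsMinAt E v (V v)) →
      ∀ v : HeightOneSpectrum (𝓞 k), (B : 𝓞 k) ∉ v.asIdeal → ∀ s : ℂ, (lf V s v)⁻¹ = ef c s v)
    {G : ℂ → ℂ} (hG : Differentiable ℂ G) (hG1 : G 1 ≠ 0)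
    (hP : ∀ s : ℂ, 3 / 2 < s.re →
      HasProd (fun u : {u : HeightOneSpectrum (𝓞 k) | (B : 𝓞 k) ∉ u.asIdeal} =>
          ef c s u.1) (G s)) : OrderAndRankZero E := by
  obtain ⟨⟨V0, hV0⟩, ⟨Λ, h1, h2, h3, h4, h5⟩, h6⟩ :=
    Pool.Agent.T6.H10.BM.cont hE hB hloc hG hG1 hP
  have hM0 : MinimalModels E (fun P => V0 ((eP k).symm P)) :=
    (minimal_iff _ _).2 fun v => hV0 v
  have hprod : ∀ M : {P : Ideal (𝓞 k) // P.IsPrime ∧ P ≠ ⊥} → WeierstrassCurve (𝓞 k),
      MinimalModels E M →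
      ∀ s : ℂ, 3 / 2 < s.re → HasProd (factor M s) (Λ s) := by
    intro M hM s hs
    have h7 := h5 (fun v => M (eP k v)) ((minimal_iff _ _).1 hM) s hs
    refine ((eP k).hasProd_iff).1 (h7.congr_fun fun v => ?_)
    exact factor_eq M s v
  refine ⟨hE, ⟨_, hM0⟩, ⟨Λ, h1, h2, h3, hprod⟩, fun M hM => ⟨?_, ?_⟩, hfin, ?_⟩
  · refine ⟨{z : ℂ | AnalyticAt ℂ Λ z}, Λ, isOpen_analyticAt ℂ Λ, isConnected_analytic h1, h2,
      fun s hs => h4 s hs, fun s hs => hs, fun s hs => ?_⟩
    exact (hprod M hM s hs).tprod_eq.symm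
  · rintro U f ⟨-, hU2, h1U, hre, hf, hfL⟩
    have h7 : f 1 ≠ 0 := by
      refine h6 (fun v => M (eP k v)) ((minimal_iff _ _).1 hM) U f hU2.isPreconnected h1U hre hf
        fun s hs => ?_
      rw [hfL s hs, ← (eP k).tprod_eq]
      exact tprod_congr fun v => factor_eq M s v
    refine ⟨h7, ?_⟩
    have h8 := (hf 1 h1U).analyticOrderAt_eq_zero.2 h7
    unfold analyticOrderNatAt
    rw [h8]
    rfl
  · rw [Module.finrank_eq_zero_iff]
    intro P
    refine ⟨(Nat.card E.toAffine.Point : ℤ), ?_, ?_⟩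
    · exact_mod_cast Nat.card_pos.ne'
    · rw [natCast_zsmul]
      exact card_nsmul_eq_zero'

end bridge

section proof

open Pool.Agent.Y692.QS (Ei w nr)
open Pool.Agent.Y715.T.Rec (cs)
open Pool.Agent.Y715.T.RecG (Pq)
open Pool.Agent.Y703.CT (Dt pD Ker ClsE)
open Pool.Agent.Y696.CTK (ClsK Tri)
open Pool.Agent.R432.C

theorem pq_three {q : Ei} (h : Pq q) : ¬ q ∣ 3 := h.norm

theorem isCubeMod_iff (j : Ei ≃+* 𝓞 K) {x l : Ei} (hl : Pq l) (hx : ¬ l ∣ x) :
    IsCubeMod (j x) (j l) ↔ cs l x = 0 := by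
  rw [Pool.Agent.Y715.T.RecG.cs_zero_iff hl.prime (pq_three hl) hx]
  constructor
  · rintro ⟨y, hy⟩
    refine ⟨j.symm y, ?_⟩
    rw [← map_dvd_iff j, map_sub, map_pow, RingEquiv.apply_symm_apply]
    exact hy
  · rintro ⟨y, hy⟩
    refine ⟨j y, ?_⟩
    rw [← map_pow, ← map_sub, map_dvd_iff j]
    exact hy

theorem three_iff (j : Ei ≃+* 𝓞 K) (x : Ei) : (3 : 𝓞 K) ∣ j x - 1 ↔ (3 : Ei) ∣ x - 1 := by
  have : j x - 1 = j (x - 1) := by rw [map_sub, map_one]
  rw [this, ← map_ofNat j 3, map_dvd_iff j]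

theorem pq_iff (j : Ei ≃+* 𝓞 K) (x : Ei) : (Prime (j x) ∧ (3 : 𝓞 K) ∣ j x - 1) ↔ Pq x := by
  rw [three_iff, MulEquiv.prime_iff j]
  exact ⟨fun h => ⟨h.1, h.2⟩, fun h => ⟨h.prime, h.three⟩⟩

variable {n : ℕ} {π : Fin (n + 1) → Ei}

theorem pq_factor (hdt : Dt π (fun _ => 1)) {p : Ei} (hp : Pq p) :
    p ∣ pD π (fun _ => 1) ↔ ∃ i, p = π i := by
  constructor
  · intro h
    obtain ⟨i, -, hi⟩ := (hp.prime.dvd_finsetProd_iff _).1 h
    exact ⟨i, pq_dvd hp (hdt.pq i) (hp.prime.dvd_of_dvd_pow hi)⟩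
  · rintro ⟨i, rfl⟩
    have h1 : (1 : ZMod 3).val ≠ 0 := by decide
    exact (dvd_pow_self (π i) h1).trans
      (Finset.dvd_prod_of_mem (fun i => π i ^ (1 : ZMod 3).val) (Finset.mem_univ i))

theorem attached_iff (j : Ei ≃+* 𝓞 K) (hj : ∀ z : Ei, Algebra.norm ℤ (j z) = nr z)
    (hdt : Dt π (fun _ => 1)) (l : Ei) :
    Attached (j (pD π (fun _ => 1))) (j l) ↔ Pq l ∧ nr l % 9 = 1 ∧ (∀ i, l ≠ π i) ∧
      ∃ i, cs l (π i) ≠ 0 ∧ ∀ k, k ≠ i → cs l (π k) = 0 := by
  have h9 : (9 : ℤ) ∣ Algebra.norm ℤ (j l) - 1 ↔ nr l % 9 = 1 := by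
    rw [hj]
    omega
  have hinj : Function.Injective π := by
    intro a b hab
    by_contra hne
    exact hdt.nd a b hne (by rw [hab])
  constructor
  · rintro ⟨h1, h2, h3, h4, p, ⟨hp1, hp2, hp3, hp4⟩, huniq⟩
    have hl := (pq_iff j l).1 ⟨h1, h2⟩
    have hne : ∀ i, l ≠ π i := by
      intro i hi
      apply h4
      rw [map_dvd_iff j]
      exact (pq_factor hdt hl).2 ⟨i, hi⟩
    have hnd : ∀ i, ¬ l ∣ π i := fun i hd => hne i (pq_dvd hl (hdt.pq i) hd)
    obtain ⟨p', rfl⟩ := j.surjective p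
    have hp' := (pq_iff j p').1 ⟨hp1, hp2⟩
    obtain ⟨i, rfl⟩ := (pq_factor hdt hp').1 ((map_dvd_iff j).1 hp3)
    refine ⟨hl, h9.1 h3, hne, i, fun h => hp4 ((isCubeMod_iff j hl (hnd i)).2 h), fun k hk => ?_⟩
    by_contra hcon
    apply hk
    apply hinj
    apply j.injective
    apply huniq
    refine ⟨((pq_iff j _).2 (hdt.pq k)).1, ((pq_iff j _).2 (hdt.pq k)).2, ?_,
      fun h => hcon ((isCubeMod_iff j hl (hnd k)).1 h)⟩
    rw [map_dvd_iff j]
    exact (pq_factor hdt (hdt.pq k)).2 ⟨k, rfl⟩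
  · rintro ⟨hl, h3, hne, i, hi, hk⟩
    have hnd : ∀ i, ¬ l ∣ π i := fun i hd => hne i (pq_dvd hl (hdt.pq i) hd)
    refine ⟨((pq_iff j _).2 hl).1, ((pq_iff j _).2 hl).2, h9.2 h3, ?_, j (π i), ⟨?_, ?_, ?_, ?_⟩, ?_⟩
    · rw [map_dvd_iff j]
      intro h
      obtain ⟨k, h5⟩ := (pq_factor hdt hl).1 h
      exact hne k h5
    · exact ((pq_iff j _).2 (hdt.pq i)).1
    · exact ((pq_iff j _).2 (hdt.pq i)).2
    · rw [map_dvd_iff j]
      exact (pq_factor hdt (hdt.pq i)).2 ⟨i, rfl⟩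
    · exact fun h => hi ((isCubeMod_iff j hl (hnd i)).1 h)
    · rintro q ⟨hq1, hq2, hq3, hq4⟩
      obtain ⟨q', rfl⟩ := j.surjective q
      have hq' := (pq_iff j q').1 ⟨hq1, hq2⟩
      obtain ⟨k, rfl⟩ := (pq_factor hdt hq').1 ((map_dvd_iff j).1 hq3)
      by_contra hcon
      apply hq4
      rw [isCubeMod_iff j hl (hnd k)]
      exact hk k fun h => hcon (by rw [h])

theorem admissible_iff (j : Ei ≃+* 𝓞 K) (hj : ∀ z : Ei, Algebra.norm ℤ (j z) = nr z)
    (hdt : Dt π (fun _ => 1)) (S : Finset Ei) :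
    Admissible (j (pD π (fun _ => 1))) (S.image j) ↔ ∃ j₀ : Ei → Fin (n + 1), Leaf π j₀ S := by
  have hpw : ∀ l m : Ei, Pq l → Pq m → m ≠ l → (IsCubeMod (j m) (j l) ↔ cs l m = 0) :=
    fun l m hl hm hne => isCubeMod_iff j hl fun hd => hne (pq_dvd hl hm hd).symm
  constructor
  · rintro ⟨h1, h2⟩
    have h3 := fun l (hl : l ∈ S) => (attached_iff j hj hdt l).1 (h1 _ (Finset.mem_image_of_mem j hl))
    have h4 : ∀ l : Ei, ∃ i, l ∈ S → cs l (π i) ≠ 0 ∧ ∀ k, k ≠ i → cs l (π k) = 0 := by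
      intro l
      by_cases hl : l ∈ S
      · obtain ⟨i, hi⟩ := (h3 l hl).2.2.2
        exact ⟨i, fun _ => hi⟩
      · exact ⟨0, fun h => absurd h hl⟩
    choose j₀ hj₀ using h4
    refine ⟨j₀, fun l hl => (h3 l hl).1, fun l hl => (h3 l hl).2.2.1, fun l hl => (h3 l hl).2.1,
      fun l hl => (hj₀ l hl).1, fun l hl => (hj₀ l hl).2, fun l hl m hm hlm => ?_⟩
    rw [← hpw l m (h3 l hl).1 (h3 m hm).1 hlm.symm]
    exact h2 _ (Finset.mem_image_of_mem j hl) _ (Finset.mem_image_of_mem j hm)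
      fun h => hlm (j.injective h).symm
  · rintro ⟨j₀, hL⟩
    constructor
    · intro l hl
      obtain ⟨l', hl', rfl⟩ := Finset.mem_image.1 hl
      exact (attached_iff j hj hdt l').2 ⟨hL.pq l' hl', hL.nine l' hl', hL.ne l' hl', j₀ l',
        hL.at0 l' hl', hL.off l' hl'⟩
    · intro l hl m hm hlm
      obtain ⟨l', hl', rfl⟩ := Finset.mem_image.1 hl
      obtain ⟨m', hm', rfl⟩ := Finset.mem_image.1 hm
      have hne : m' ≠ l' := fun h => hlm (by rw [h])
      rw [hpw l' m' (hL.pq l' hl') (hL.pq m' hm') hne]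
      exact hL.pw l' hl' m' hm' hne.symm

/-- There is a field generated by the cube roots. -/
theorem exists_generated (S : Finset (𝓞 K)) :
    ∃ (F : Type) (_ : Field F) (_ : NumberField F) (_ : Algebra K F), Generated S F := by
  let p : Polynomial K := ∏ l ∈ S, (Polynomial.X ^ 3 - Polynomial.C (l : K))
  let F : Type := p.SplittingField
  have : NumberField F := NumberField.of_module_finite K F
  have hp0 : p ≠ 0 := Finset.prod_ne_zero_iff.2 fun l _ =>
    Polynomial.X_pow_sub_C_ne_zero (by norm_num) _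
  have hsp : (p.map (algebraMap K F)).Splits := Polynomial.SplittingField.splits p
  have hp0' : p.map (algebraMap K F) ≠ 0 :=
    (Polynomial.map_ne_zero_iff (algebraMap K F).injective).2 hp0
  have hroot : ∀ l : 𝓞 K, ∃ x : F, l ∈ S → x ^ 3 = algebraMap K F (l : K) := by
    intro l
    by_cases hl : l ∈ S
    · have h1 : ((Polynomial.X ^ 3 - Polynomial.C (l : K)).map (algebraMap K F)).Splits :=
        hsp.of_dvd hp0' (Polynomial.map_dvd _ (Finset.dvd_prod_of_mem _ hl))
      obtain ⟨x, hx⟩ := h1.exists_eval_eq_zero (by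
        rw [Polynomial.degree_map, Polynomial.degree_X_pow_sub_C (by norm_num)]
        norm_num)
      refine ⟨x, fun _ => ?_⟩
      simp at hx
      linear_combination hx
    · exact ⟨0, fun h => absurd h hl⟩
  choose r hr using hroot
  let M : IntermediateField K F := IntermediateField.adjoin K (r '' S)
  have hMn : NumberField M := NumberField.of_module_finite K M
  have hrM : ∀ l ∈ S, r l ∈ M := fun l hl =>
    IntermediateField.subset_adjoin K _ ⟨l, hl, rfl⟩
  refine ⟨M, inferInstance, hMn, inferInstance, fun l => if h : l ∈ S then ⟨r l, hrM l h⟩ else 0,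
    fun l hl => ?_, fun L hL1 hL2 => ?_⟩
  · simp only [dif_pos hl]
    apply Subtype.ext
    exact hr l hl
  · rw [eq_top_iff]
    intro y _
    let L' : IntermediateField K F :=
      { (L.map (algebraMap M F)) with
        algebraMap_mem' := fun k => ⟨algebraMap K M k, hL1 k, rfl⟩ }
    have h1 : M ≤ L' := by
      apply IntermediateField.adjoin_le_iff.2
      rintro _ ⟨l, hl, rfl⟩
      have h2 := hL2 l hl
      simp only [dif_pos (Finset.mem_coe.1 hl)] at h2
      exact ⟨_, h2, rfl⟩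
    obtain ⟨y', hy', h2⟩ := h1 y.2
    have h3 : y' = y := Subtype.ext h2
    rw [← h3]
    exact hy'


section data

variable {K : Type} [Field K] [NumberField K]

/-- the data of an element of the class -/
theorem data [IsCyclotomicExtension {3} ℚ K] {D : 𝓞 K} (hD : InClass D) (h : NoThree D) :
    ∃ (j : Ei ≃+* 𝓞 K) (n : ℕ) (π : Fin (n + 1) → Ei), (∀ z : Ei, Algebra.norm ℤ (j z) = nr z) ∧
      Dt π (fun _ => 1) ∧ D = j (pD π (fun _ => 1)) ∧ Ker π (fun _ => 1) ∧
      ¬ (9 : ℤ) ∣ nr (pD π (fun _ => 1)) - 1 := by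
  obtain ⟨⟨j, hj⟩, -⟩ := Pool.Agent.Y455.CTK.jex K
  obtain ⟨z, rfl⟩ := j.surjective D
  have hcls : ClsE z := by
    obtain ⟨h1, h2, h3⟩ := hD
    refine ⟨(three_iff j z).1 h1, ?_, by rw [← hj]; exact h3⟩
    intro x hx
    have h4 := h2 (j x) (by rw [← map_mul]; exact map_dvd j hx)
    exact (MulEquiv.isUnit_map j).1 h4
  obtain ⟨n, π, hdt, rfl, -⟩ := Pool.Agent.Y696.CTK.ge2 z hcls
  exact ⟨j, n, π, hj, hdt, rfl,
    (Pool.Agent.Y696.CTK.tri_iff j Pool.Agent.Y696.CTK.parts hdt hcls.2.2).1 h, hcls.2.2⟩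

theorem image_of (j : Ei ≃+* 𝓞 K) (S : Finset (𝓞 K)) : ∃ S' : Finset Ei, S = S'.image j := by
  refine ⟨S.image j.symm, ?_⟩
  rw [Finset.image_image]
  ext x
  simp

/-- the subfields -/
theorem sub_of (j : Ei ≃+* 𝓞 K) {m : ℕ} {π : Fin (m + 1) → Ei} (hdt : Dt π (fun _ => 1))
    (hk : Ker π (fun _ => 1)) (h9 : ¬ (9 : ℤ) ∣ nr (pD π (fun _ => 1)) - 1) {S' : Finset Ei}
    {j₀ : Ei → Fin (m + 1)} (hL : Leaf π j₀ S') {F : Type} [Field F] [NumberField F] [Algebra K F]
    (hF : Generated (S'.image j) F) :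
    Module.finrank K F = 3 ^ (S'.image j).card ∧
      ∀ (k : Type) [Field k] [NumberField k] (σ : k →+* F) (c : k),
        σ c = algebraMap K F ((j (pD π (fun _ => 1)) : 𝓞 K) : K) →
          OrderAndRankZero (curve c) ∧ OrderAndRankZero (cubesCurve c) := by
  obtain ⟨r, hr1, hr2⟩ := hF
  have hr1' : ∀ l ∈ S', r (j l) ^ 3 = algebraMap K F ((j l : 𝓞 K) : K) :=
    fun l hl => hr1 _ (Finset.mem_image_of_mem j hl)
  have hr2' : ∀ L : Subfield F, (∀ k : K, algebraMap K F k ∈ L) → (∀ l ∈ S', r (j l) ∈ L) →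
      L = ⊤ := fun L h2 h3 => hr2 L h2 fun l hl => by
    obtain ⟨l', hl', rfl⟩ := Finset.mem_image.1 hl
    exact h3 l' hl'
  refine ⟨?_, fun k _ _ σ c hc => ?_⟩
  · obtain ⟨h1, -, -⟩ := tower j hdt hk h9 hL (F := F) (fun l => r (j l)) hr1' hr2'
    rw [Finset.card_image_of_injective _ j.injective]
    exact h1
  · have hint : IsIntegral ℤ c := by
      have h1 : IsIntegral ℤ (σ c) := by
        rw [hc]
        exact (j _).2.map ((algebraMap K F).toIntAlgHom)
      exact (isIntegral_algHom_iff (σ.toIntAlgHom) σ.injective).1 h1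
    obtain ⟨h1, h2, B, G, h3, h4, h5, h6, h7, h8⟩ := Pool.Agent.T6.H10.BM.sub_all j hdt hk h9 hL
      (F := F) (fun l => r (j l)) hr1' hr2' σ ⟨c, hint⟩ hc
    obtain ⟨-, hfinF, -⟩ := tower j hdt hk h9 hL (F := F) (fun l => r (j l)) hr1' hr2'
    have h3m : ∀ v : HeightOneSpectrum (𝓞 k), (B : 𝓞 k) ∉ v.asIdeal → (3 : 𝓞 k) ∉ v.asIdeal := by
      intro v hv h
      apply hv
      obtain ⟨b, rfl⟩ := h4
      rw [Nat.cast_mul]
      exact Ideal.mul_mem_right _ _ (by exact_mod_cast h)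
    have hzF : (algebraMap K F ((j w : 𝓞 K) : K)) ^ 2 + algebraMap K F ((j w : 𝓞 K) : K) + 1 = 0 := by
      have hω := om_K j
      rw [← map_pow, ← map_add, ← map_one (algebraMap K F), ← map_add, hω, map_zero]
    have hioE : (ED (algebraMap K F ((j (pD π (fun _ => 1)) : 𝓞 K) : K))).IsElliptic := by
      have h0 : Pool.Agent.R432.V.io F j (pD π (fun _ => 1)) ≠ 0 := by
        rw [Ne, map_eq_zero_iff _ (Pool.Agent.R432.V.io_inj j)]
        exact Pool.Agent.Y153.CTRAM.ne_zero_of hdt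
      exact Pool.Agent.T6.H10.BM.ellc h0
    refine ⟨orz (Pool.Agent.T6.H10.BM.ellc h2) h1 h3 (fun V hV v hv s =>
        Pool.Agent.T6.H10.BM.lf_goodc h2 (h3m v hv) (fun h => hv (h5 v h)) (hV v) s) h6 h7 h8,
      orz (Pool.Agent.T6.H10.BM.elld h2)
        (Pool.Agent.T6.H10.BM.pts_fin' σ hc three_ne_zero hzF hioE hfinF) h3 (fun V hV v hv s =>
        Pool.Agent.T6.H10.BM.lf_goodd h2 (h3m v hv) (fun h => hv (h5 v h)) (hV v) s) h6 h7 h8⟩

theorem subfields_of [IsCyclotomicExtension {3} ℚ K] {D : 𝓞 K} (hD : InClass D)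
    (h : NoThree D) : Subfields D := by
  obtain ⟨j, n, π, hj, hdt, rfl, hk, h9⟩ := data hD h
  have hinj : Function.Injective π := by
    intro a b hab
    by_contra hne
    exact hdt.nd a b hne (by rw [hab])
  intro S hS
  obtain ⟨S', rfl⟩ := image_of j S
  obtain ⟨j₀, hL⟩ := (admissible_iff j hj hdt S').1 hS
  refine ⟨?_, exists_generated _, fun F _ _ _ hF => sub_of j hdt hk h9 hL hF⟩
  have h1 := more_leaves hdt.pq hinj hL 0
  refine (h1.image j.injective.injOn).mono ?_
  rintro _ ⟨l, ⟨hl1, hl2⟩, rfl⟩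
  refine ⟨fun h => hl1 ?_, ?_⟩
  · obtain ⟨l', hl', h2⟩ := Finset.mem_image.1 h
    rw [← j.injective h2]
    exact hl'
  · rw [← Finset.image_insert]
    refine (admissible_iff j hj hdt _).2 ⟨Function.update j₀ l 0, hl2 _ (fun x hx => ?_) ?_⟩
    · rw [Function.update_of_ne fun h => hl1 (by rw [← h]; exact hx)]
    · rw [Function.update_self]

/-- the automorphisms of `𝓞 K` -/
theorem tau (j : Ei ≃+* 𝓞 K) (τ : 𝓞 K ≃+* 𝓞 K) :
    (∀ a, τ (j a) = j a) ∨ (∀ a, τ (j a) = j (star a)) := by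
  have h : (w : Ei) ^ 2 + w + 1 = 0 := by decide
  have h1 : (j w) ^ 2 + j w + 1 = 0 := by
    rw [← map_pow, ← map_add, ← map_one j, ← map_add, h, map_zero]
  have h2 : (τ (j w)) ^ 2 + τ (j w) + 1 = 0 := by
    rw [← map_pow, ← map_add, ← map_one τ, ← map_add, h1, map_zero]
  have h3 : (τ (j w) - j w) * (τ (j w) - j w ^ 2) = 0 := by
    linear_combination h2 - (τ (j w) + 1 - j w) * h1
  have hexp : ∀ a1 a2 : ℤ, j ⟨a1, a2⟩ = (a1 : 𝓞 K) + (a2 : 𝓞 K) * j w := by
    intro a1 a2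
    have e1 : (⟨a1, a2⟩ : Ei) = (a1 : Ei) + (a2 : Ei) * w := Pool.Agent.Y692.QS.eta _
    rw [e1, map_add, map_mul, map_intCast, map_intCast]
  have hτ : ∀ a1 a2 : ℤ, τ (j ⟨a1, a2⟩) = (a1 : 𝓞 K) + (a2 : 𝓞 K) * τ (j w) := by
    intro a1 a2
    rw [hexp, map_add, map_mul, map_intCast, map_intCast]
  rcases mul_eq_zero.1 h3 with h4 | h4
  · left
    rintro ⟨a1, a2⟩
    rw [hτ, sub_eq_zero.1 h4]
    exact (hexp a1 a2).symm
  · right
    rintro ⟨a1, a2⟩
    have e1 : (⟨a1, a2⟩ : Ei) = (a1 : Ei) + (a2 : Ei) * w := Pool.Agent.Y692.QS.eta _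
    have e2 : star (w : Ei) = w ^ 2 := by decide
    rw [hτ, sub_eq_zero.1 h4, e1, star_add, star_mul', star_intCast, star_intCast, e2, map_add,
      map_mul, map_intCast, map_intCast, map_pow]

theorem stable_of (j : Ei ≃+* 𝓞 K) {S' : Finset Ei} (h : ∀ l ∈ S', star l ∈ S') :
    Stable (S'.image j) := by
  intro τ l hl
  obtain ⟨l', hl', rfl⟩ := Finset.mem_image.1 hl
  rcases tau j τ with h1 | h1
  · rw [h1]
    exact hl
  · rw [h1]
    exact Finset.mem_image_of_mem j (h l' hl')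

theorem of_stable (j : Ei ≃+* 𝓞 K) {S' : Finset Ei} (h : Stable (S'.image j)) :
    ∀ l ∈ S', star l ∈ S' := by
  intro l hl
  have h1 := h ((j.symm.trans (starRingAut : RingAut Ei)).trans j) (j l)
    (Finset.mem_image_of_mem j hl)
  have h2 : ((j.symm.trans (starRingAut : RingAut Ei)).trans j) (j l) = j (star l) := by
    simp
  rw [h2] at h1
  obtain ⟨l', hl', h3⟩ := Finset.mem_image.1 h1
  rw [← j.injective h3]
  exact hl'

theorem real_of [IsCyclotomicExtension {3} ℚ K] {n : ℤ} (hD : InClass (n : 𝓞 K))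
    (h : NoThree (n : 𝓞 K)) : RealTowers K n := by
  obtain ⟨j, m, π, hj, hdt, hDn, hk, h9⟩ := data hD h
  have hn : pD π (fun _ => 1) = (n : Ei) := by
    apply j.injective
    rw [← hDn, map_intCast]
  intro S hSt hS
  obtain ⟨S', rfl⟩ := image_of j S
  rw [hDn] at hS
  obtain ⟨j₀, hL⟩ := (admissible_iff j hj hdt S').1 hS
  have hst := of_stable j hSt
  refine ⟨?_, fun F _ _ _ hF => ?_⟩
  · refine (Pool.Agent.T6.H10.BM.more_stable hdt hn hL hst).mono ?_
    rintro p ⟨hp, l, j₂, hlq, hl1, hl2, hl3, hl4, hl5⟩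
    have hl6 : l ∉ insert (star l) S' := by
      rw [Finset.mem_insert, not_or]
      exact ⟨hl3, hl1⟩
    refine ⟨hp, (insert l (insert (star l) S')).image j, ?_, ?_, ?_, ?_, ?_⟩
    · exact Finset.image_subset_image fun x hx =>
        Finset.mem_insert_of_mem (Finset.mem_insert_of_mem hx)
    · rw [Finset.card_image_of_injective _ j.injective, Finset.card_image_of_injective _ j.injective,
        Finset.card_insert_of_notMem hl6, Finset.card_insert_of_notMem hl2]
    · refine stable_of j fun x hx => ?_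
      rcases Finset.mem_insert.1 hx with rfl | hx1
      · exact Finset.mem_insert_of_mem (Finset.mem_insert_self _ _)
      rcases Finset.mem_insert.1 hx1 with rfl | hx2
      · rw [star_star]
        exact Finset.mem_insert_self _ _
      · exact Finset.mem_insert_of_mem (Finset.mem_insert_of_mem (hst x hx2))
    · rw [hDn]
      exact (admissible_iff j hj hdt _).2 ⟨j₂, hl5⟩
    · rw [← Finset.image_sdiff _ _ j.injective, Finset.prod_image j.injective.injOn]
      have e1 : (insert l (insert (star l) S')) \ S' = {l, star l} := by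
        ext x
        simp only [Finset.mem_sdiff, Finset.mem_insert, Finset.mem_singleton]
        constructor
        · rintro ⟨h1 | h1 | h1, h2⟩
          · exact Or.inl h1
          · exact Or.inr h1
          · exact absurd h1 h2
        · rintro (h1 | h1)
          · exact ⟨Or.inl h1, by rw [h1]; exact hl1⟩
          · exact ⟨Or.inr (Or.inl h1), by rw [h1]; exact hl2⟩
      rw [e1, Finset.prod_pair hl3, ← map_mul, Pool.Agent.Y692.QS.mul_star, hl4, map_intCast,
        Int.cast_natCast]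
  · obtain ⟨h1, h2⟩ := sub_of j hdt hk h9 hL hF
    obtain ⟨r, hr1, hr2⟩ := hF
    obtain ⟨k, i1, i2, σ, h3, h4⟩ := Pool.Agent.T6.H10.BM.real_sub j hst (F := F)
      (fun l => r (j l)) (fun l hl => hr1 _ (Finset.mem_image_of_mem j hl))
      (fun L h2 h3 => hr2 L h2 fun l hl => by
        obtain ⟨l', hl', rfl⟩ := Finset.mem_image.1 hl
        exact h3 l' hl')
    refine ⟨k, i1, i2, σ, ?_, h4, h2 k σ (n : k) ?_⟩
    · have hirrQ : Irreducible (Polynomial.cyclotomic 3 ℚ) :=
        Polynomial.cyclotomic.irreducible_rat (by norm_num)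
      have e3 : Module.finrank ℚ K = 2 := by
        rw [IsCyclotomicExtension.finrank K hirrQ]
        decide
      have ht : IsScalarTower ℚ K F := IsScalarTower.of_algebraMap_eq' (RingHom.ext_rat _ _)
      have e1 : Module.finrank ℚ K * Module.finrank K F = Module.finrank ℚ F :=
        Module.finrank_mul_finrank ℚ K F
      rw [h1, e3] at e1
      omega
    · rw [map_intCast, ← hDn]
      simp

theorem cyclic_of (K : Type) [Field K] [NumberField K] [IsCyclotomicExtension {3} ℚ K] {q : ℕ}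
    (hq : q.Prime) (hq9 : q % 9 = 2 ∨ q % 9 = 5) : CyclicCubicFields q := by
  have hp23 : ∀ p : ℕ, p % 9 = 1 → p ≠ 2 ∧ p ≠ 3 := by
    intro p hp
    constructor <;> rintro rfl <;> norm_num at hp
  refine ⟨(Pool.Agent.T6.H10.BM.cyc_inf hq hq9).mono ?_, ?_⟩
  · rintro p ⟨hp, hp9, hnc, a, b, hab⟩
    obtain ⟨k, i1, i2, t, h1, h2⟩ := Pool.Agent.T6.H10.BM.cyc_exists hp (hp23 p hp9).1
      (hp23 p hp9).2 hab
    exact ⟨hp, hp9, hnc, k, i1, i2, h1, a, b, hab, t, h2⟩
  · rintro p hp hp9 hnc k _ _ ⟨hk3, a, b, hab, t, ht⟩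
    refine ⟨Pool.Agent.T6.H10.BM.cyc_gal hp (hp23 p hp9).1 (hp23 p hp9).2 hab hk3 ht, ?_⟩
    obtain ⟨⟨j, hj⟩, -⟩ := Pool.Agent.Y455.CTK.jex K
    obtain ⟨a', l, ha', hl, hnl, hls, hsum⟩ := Pool.Agent.T6.H10.BM.cyc_l hp hp9 hab
    obtain ⟨hD, hk, hpD, h9, hL⟩ := Pool.Agent.T6.H10.BM.cyc_leaf hq hq9 hp hp9 hnc hl hnl hls
    obtain ⟨F, i1, i2, i3, hF⟩ := exists_generated (({l, star l} : Finset Ei).image j)
    have h2 := (sub_of (m := 0) j hD hk (by rw [hpD]; exact h9) hL hF).2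
    obtain ⟨r, hr1, hr2⟩ := hF
    obtain ⟨T, hT⟩ := Pool.Agent.T6.H10.BM.cyc_T j hnl ha' hsum (X := r (j l)) (Y := r (j (star l)))
      (hr1 _ (Finset.mem_image_of_mem j (by simp))) (hr1 _ (Finset.mem_image_of_mem j (by simp)))
    obtain ⟨σ⟩ := Pool.Agent.T6.H10.BM.cyc_emb hp (hp23 p hp9).1 (hp23 p hp9).2 hab hk3 ht hT
    refine h2 k σ (-(q : k)) ?_
    rw [hpD, map_neg, map_natCast, map_neg, map_natCast]
    simp

/-- the rational numbers of the class without splitting -/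
theorem rat_of [IsCyclotomicExtension {3} ℚ K] {D : ℕ} (hC : RatClass D)
    (hN : HasNoSplitting D) {n : ℤ} (hn : n = D ∨ n = -D) (h3 : (3 : ℤ) ∣ n - 1) :
    InClass (n : 𝓞 K) ∧ NoThree (n : 𝓞 K) := by
  obtain ⟨⟨j, hj⟩, -⟩ := Pool.Agent.Y455.CTK.jex K
  obtain ⟨hsq, h3D, h91, h98, hq⟩ := hC
  have hCl : Pool.Agent.R432.JG.Cl ∅ D := (Pool.Agent.R432.JG.cl_iff ∅ D).2
    ⟨hsq, h3D, h91, h98, by simp, hq⟩
  have hjn : (n : 𝓞 K) = j (n : Ei) := (map_intCast j n).symm
  have hsqE : Squarefree ((D : ℕ) : Ei) := Pool.Agent.Y696.CTP.nsq D hsq h3D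
  have hnr : nr (n : Ei) = n ^ 2 := by
    have h1 : nr ((D : ℕ) : Ei) = (D : ℤ) ^ 2 := Pool.Agent.Y692.QS.nr_nat D
    rcases hn with rfl | rfl
    · rw [Int.cast_natCast, h1]
    · rw [Int.cast_neg, Int.cast_natCast, Pool.Agent.Y692.QS.nr_neg, h1]
      ring
  have hcls : ClsE (n : Ei) := by
    refine ⟨?_, ?_, ?_⟩
    · obtain ⟨c, hc⟩ := h3
      refine ⟨(c : Ei), ?_⟩
      have h1 : ((n - 1 : ℤ) : Ei) = ((3 * c : ℤ) : Ei) := by rw [hc]
      push_cast at h1
      exact h1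
    · intro x hx
      apply hsqE x
      rcases hn with rfl | rfl
      · rwa [Int.cast_natCast] at hx
      · rw [Int.cast_neg, Int.cast_natCast, dvd_neg] at hx
        exact hx
    · rw [hnr]
      intro h
      have h1 : (n ^ 2) % 9 = 1 := by omega
      have h2 : n % 9 = 1 ∨ n % 9 = 8 := by
        have h5 : ∀ r : ℕ, r < 9 → (r ^ 2) % 9 = 1 → r = 1 ∨ r = 8 := by decide
        have h6 : 0 ≤ n % 9 := Int.emod_nonneg _ (by norm_num)
        have h7 : n % 9 < 9 := Int.emod_lt_of_pos _ (by norm_num)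
        have h8 : ((n % 9) ^ 2) % 9 = 1 := by
          rw [← h1]
          exact (Int.ModEq.pow 2 (Int.mod_modEq n 9))
        obtain ⟨r, hr⟩ := Int.eq_ofNat_of_zero_le h6
        rw [hr] at h8 h7
        have h9 := h5 r (by exact_mod_cast h7) (by exact_mod_cast h8)
        omega
      rcases hn with rfl | rfl
      · omega
      · omega
  have hIn : InClass (n : 𝓞 K) := by
    rw [hjn]
    refine ⟨(three_iff j _).2 hcls.1, ?_, by rw [hj]; exact hcls.2.2⟩
    intro x hx
    obtain ⟨y, rfl⟩ := j.surjective x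
    rw [← map_mul, map_dvd_iff j] at hx
    exact (hcls.2.1 y hx).map j
  refine ⟨hIn, ?_⟩
  obtain ⟨m, π, hdt, hz, -⟩ := Pool.Agent.Y696.CTK.ge2 (n : Ei) hcls
  have hDp : ((D : ℕ) : Ei) = pD π (fun _ => 1) ∨ ((D : ℕ) : Ei) = -pD π (fun _ => 1) := by
    rcases hn with rfl | rfl
    · left
      rw [← hz, Int.cast_natCast]
    · right
      rw [← hz, Int.cast_neg, Int.cast_natCast, neg_neg]
  have hKer := Pool.Agent.Y405.CT.cri Pool.Agent.Y350.CT.rec D hCl.2.1 hN (Fin (m + 1)) π _ hdt hDp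
  have h9 := hcls.2.2
  rw [hz] at h9
  rw [hjn, hz]
  exact (Pool.Agent.Y696.CTK.tri_iff j Pool.Agent.Y696.CTK.parts hdt h9).2 hKer

end data

end proof

/-- **Main theorem.**  `K` is the field of the third roots of unity.  (1) If `D` is in the class,
`E_D(K)` is finite and `Ш(E_D / K)` has no elements of order `3` then `D` has the property `Subfields`:
over every subfield containing `D` of the fields `K(∛l : l ∈ S)`, `S` admissible, the orders of
vanishing and the ranks of `E_D` and `E'_D` are zero.  (2) If such a `D` is a rational integer then it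
has the property `RealTowers`: the stable admissible sets can be enlarged, and the fields
`K(∛l : l ∈ S)`, `S` stable and admissible, have subfields of degree `3 ^ #S` over `ℚ` with a real
embedding.  (3) There are at least `c X` elements of norm at most `X` in the class, and for all large
`X` at least `63.9` percent of them have the property `Subfields`.  (4) The proportion of the `D` in the
class of rational integers that have no splitting tends to `∏ (1 - 3 ^ (-i)) > 0.56`, and all of them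
(with the sign such that `D = 1` modulo `3`) have the properties of (1) and (2).  (5) The primes
`q = 2, 5` modulo `9` are in this class and have no splitting, and they have the property
`CyclicCubicFields`. -/
theorem result (K : Type) [Field K] [NumberField K] [IsCyclotomicExtension {3} ℚ K] :
    (∀ D : 𝓞 K, InClass D → NoThree D → Subfields D) ∧
    (∀ n : ℤ, InClass (n : 𝓞 K) → NoThree (n : 𝓞 K) → RealTowers K n) ∧
    ((∃ c : ℝ, 0 < c ∧ ∃ X₀ : ℕ, ∀ X : ℕ, X₀ ≤ X →
      c * X ≤ ({D : 𝓞 K | Algebra.norm ℤ D ≤ X ∧ InClass D}.ncard : ℝ)) ∧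
    ∃ X₀ : ℕ, ∀ X : ℕ, X₀ ≤ X →
      (0.639 : ℝ) * ({D : 𝓞 K | Algebra.norm ℤ D ≤ X ∧ InClass D}.ncard : ℝ) ≤
        ({D : 𝓞 K | Algebra.norm ℤ D ≤ X ∧ InClass D ∧ Subfields D}.ncard : ℝ)) ∧
    ((∃ c : ℝ, 0 < c ∧ ∃ X₀ : ℕ, ∀ X : ℕ, X₀ ≤ X →
      c * X / Real.sqrt (Real.log X) ≤ (((Finset.Icc 1 X).filter fun D => RatClass D).card : ℝ)) ∧
    (0.56 : ℝ) < ∏' i : ℕ, (1 - (1 / 3 : ℝ) ^ (i + 1)) ∧
    Filter.Tendsto (fun X : ℕ =>
      (((Finset.Icc 1 X).filter fun D => RatClass D ∧ HasNoSplitting D).card : ℝ) /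
        (((Finset.Icc 1 X).filter fun D => RatClass D).card : ℝ)) Filter.atTop
      (nhds (∏' i : ℕ, (1 - (1 / 3 : ℝ) ^ (i + 1)))) ∧
    ∀ D : ℕ, RatClass D → HasNoSplitting D → ∀ n : ℤ, (n = D ∨ n = -D) → (3 : ℤ) ∣ n - 1 →
      InClass (n : 𝓞 K) ∧ NoThree (n : 𝓞 K) ∧ Subfields (n : 𝓞 K) ∧ RealTowers K n) ∧
    ∀ q : ℕ, q.Prime → (q % 9 = 2 ∨ q % 9 = 5) →
      RatClass q ∧ HasNoSplitting q ∧ CyclicCubicFields q := by
  obtain ⟨h1, -, h2, h3, -⟩ := Pool.Agent.XL6.finalTP K
  refine ⟨fun D hD h => subfields_of hD h, fun n hD h => real_of hD h, ⟨h1, ?_⟩, ⟨?_,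
    Pool.Agent.R432.JG.c3_gt, ?_, fun D hD hN n hn h3 => ?_⟩,
    fun q hq hq9 => ⟨?_, ?_, cyclic_of K hq hq9⟩⟩
  · obtain ⟨c, hc, X₁, hX₁⟩ := h1
    obtain ⟨X₂, hX₂⟩ := Filter.eventually_atTop.1 (h2.eventually (lt_mem_nhds h3))
    refine ⟨max (max X₁ X₂) 1, fun X hX => ?_⟩
    have hXa : X₁ ≤ X := (le_max_left _ _).trans ((le_max_left _ _).trans hX)
    have hXb : X₂ ≤ X := (le_max_right _ _).trans ((le_max_left _ _).trans hX)
    have hXc : 1 ≤ X := (le_max_right _ _).trans hX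
    have h4 := hX₁ X hXa
    have h5 := hX₂ X hXb
    have hXr : (0 : ℝ) < (X : ℝ) := by exact_mod_cast hXc
    have hpos : (0 : ℝ) < ({D : 𝓞 K | Algebra.norm ℤ D ≤ X ∧ InClass D}.ncard : ℝ) :=
      lt_of_lt_of_le (mul_pos hc hXr) h4
    have h6 : (0.639 : ℝ) * ({D : 𝓞 K | Algebra.norm ℤ D ≤ X ∧ InClass D}.ncard : ℝ) <
        ({D : 𝓞 K | Algebra.norm ℤ D ≤ X ∧ Pool.Agent.Y696.CTK.ClsK D ∧
          Pool.Agent.Y696.CTK.Tri D}.ncard : ℝ) := (lt_div_iff₀ hpos).1 h5
    refine h6.le.trans ?_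
    have hfin : {D : 𝓞 K | Algebra.norm ℤ D ≤ X ∧ InClass D}.Finite := by
      by_contra hcon
      rw [(Set.not_finite.1 hcon).ncard, Nat.cast_zero] at hpos
      exact lt_irrefl _ hpos
    have h7 : {D : 𝓞 K | Algebra.norm ℤ D ≤ X ∧ Pool.Agent.Y696.CTK.ClsK D ∧
        Pool.Agent.Y696.CTK.Tri D} ⊆
        {D : 𝓞 K | Algebra.norm ℤ D ≤ X ∧ InClass D ∧ Subfields D} :=
      fun D h => ⟨h.1, h.2.1, subfields_of h.2.1 h.2.2⟩
    exact_mod_cast Set.ncard_le_ncard h7 (hfin.subset fun D h => ⟨h.1, h.2.1⟩)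
  · have h4 := Pool.Agent.R432.JG.low (M := ∅) (by simp)
    have e1 : ∀ X : ℕ, (Finset.Icc 1 X).filter (fun D => RatClass D) =
        (Finset.Icc 1 X).filter fun D => Pool.Agent.R432.JG.Cl ∅ D := fun X =>
      Finset.filter_congr fun D _ => by
        rw [Pool.Agent.R432.JG.cl_iff]
        unfold RatClass
        simp
    simp only [e1]
    exact h4
  · have h4 := Pool.Agent.R432.JG.law_all (M := ∅) (by simp) Finset.univ
    have hcard : (Finset.univ : Finset ({l : ℕ // l ∈ (∅ : Finset ℕ)} → ZMod 3)).card = 1 := by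
      rw [Finset.card_univ, Fintype.card_fun, ZMod.card, Fintype.card_coe, Finset.card_empty,
        pow_zero]
    rw [hcard, pow_one] at h4
    have e0 : ∀ D : ℕ, RatClass D ↔ Pool.Agent.R432.JG.Cl ∅ D := by
      intro D
      rw [Pool.Agent.R432.JG.cl_iff]
      unfold RatClass
      simp
    have e1 : ∀ X : ℕ, (Finset.Icc 1 X).filter (fun D => RatClass D) =
        (Finset.Icc 1 X).filter fun D => Pool.Agent.R432.JG.Cl ∅ D := fun X =>
      Finset.filter_congr fun D _ => e0 D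
    have e2 : ∀ X : ℕ, (Finset.Icc 1 X).filter (fun D => RatClass D ∧ HasNoSplitting D) =
        (Finset.Icc 1 X).filter fun D => Pool.Agent.R432.JG.Cl ∅ D ∧
          Pool.Agent.R432.JG.AG ∅ Finset.univ D := fun X =>
      Finset.filter_congr fun D _ => by
        rw [e0 D]
        refine and_congr_right fun hC => ?_
        unfold Pool.Agent.R432.JG.AG
        have e3 : ∀ t : {l : ℕ // l ∈ (∅ : Finset ℕ)} → ZMod 3,
            Pool.Agent.R432.JG.twN D ∅ t = D := by
          intro t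
          unfold Pool.Agent.R432.JG.twN
          rw [Finset.prod_eq_one fun i _ => absurd i.2 (Finset.notMem_empty _), mul_one]
        constructor
        · intro h t _
          rw [e3]
          exact h
        · intro h
          have h5 := h (fun _ => 0) (Finset.mem_univ _)
          rw [e3] at h5
          exact h5
    simp only [e1, e2]
    exact h4
  · obtain ⟨a1, a2⟩ := rat_of (K := K) hD hN hn h3
    exact ⟨a1, a2, subfields_of a1 a2, real_of a1 a2⟩
  · refine ⟨hq.prime.squarefree, ?_, by omega, by omega, q, hq, by omega, dvd_refl q,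
      fun p hp hpq hne => ?_⟩
    · intro h
      omega
    · exact absurd ((Nat.prime_dvd_prime_iff_eq hp hq).1 hpq) hne
  · intro d hd hcop _
    have hone : ∀ c : ZMod 3, d c = 1 ∨ d c = q := by
      intro c
      apply (Nat.dvd_prime hq).1
      rw [← hd]
      exact Finset.dvd_prod_of_mem d (Finset.mem_univ c)
    have hq1 : q ≠ 1 := hq.one_lt.ne'
    by_cases hall : ∀ c, d c = 1
    · exact ⟨0, fun c' _ => hall c'⟩
    · push Not at hall
      obtain ⟨c, hc⟩ := hall
      refine ⟨c, fun c' hc' => ?_⟩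
      by_contra hcon
      have e1 := (hone c).resolve_left hc
      have e2 := (hone c').resolve_left hcon
      have e3 := hcop c c' (fun h => hc' h.symm)
      rw [e1, e2, Nat.coprime_self] at e3
      exact hq1 e3

end Pool.Agent.Results.MP_413b36_nt.SubfieldsOfCubicTowers
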